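import Pool.Agent.Helper24.KK.GoalsA

/-!
# Project KK: transference (goal TRG)
-/

set_option autoImplicit false

namespace Pool.Agent.Helper60.KK

open Finset MeasureTheory Pool.Agent.Helper24.KK

theorem trg : TRG := by
  intro Φ Mm _ _ _ _ M x β u v K α _ μ _ T S ρ f g hT hS hρ hf hg hf1 hg1 hQ hF
  set Ψ : α → ℝ := fun z => (∑ n ∈ range M, x n * (f (T^[n] z) * g (S^[β n] z))) ^ 2 with hΨ
  have hm : Measurable Ψ := by
    have : Measurable fun z => ∑ n ∈ range M, x n * (f (T^[n] z) * g (S^[β n] z)) := by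
      refine Finset.measurable_sum _ fun n _ => ?_
      exact measurable_const.mul ((hf.comp (hT.measurable.iterate n)).mul
        (hg.comp (hS.measurable.iterate (β n))))
    exact this.pow_const 2
  have hb : ∀ z, |Ψ z| ≤ (∑ n ∈ range M, |x n|) ^ 2 := by
    intro z
    have h1 : |∑ n ∈ range M, x n * (f (T^[n] z) * g (S^[β n] z))| ≤ ∑ n ∈ range M, |x n| := by
      refine (Finset.abs_sum_le_sum_abs _ _).trans (Finset.sum_le_sum fun n _ => ?_)
      rw [abs_mul, abs_mul]
      have := mul_le_one₀ (hf1 (T^[n] z)) (abs_nonneg _) (hg1 (S^[β n] z))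
      nlinarith [abs_nonneg (x n)]
    have h2 : |Ψ z| = |∑ n ∈ range M, x n * (f (T^[n] z) * g (S^[β n] z))| ^ 2 := by
      rw [hΨ]
      beta_reduce
      rw [abs_pow]
    rw [h2]
    exact pow_le_pow_left₀ (abs_nonneg _) h1 2
  have hint : Integrable Ψ μ := by
    refine Integrable.of_bound hm.aestronglyMeasurable ((∑ n ∈ range M, |x n|) ^ 2) ?_
    exact Filter.Eventually.of_forall fun z => by
      rw [Real.norm_eq_abs]
      exact hb z
  have hcomp : ∀ m, ∫ z, Ψ (ρ m z) ∂μ = ∫ z, Ψ z ∂μ := by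
    intro m
    have h := integral_map (μ := μ) (φ := ρ m) (f := Ψ) (hρ m).measurable.aemeasurable
      hm.aestronglyMeasurable
    rw [(hρ m).map_eq] at h
    exact h.symm
  have hintc : ∀ m, Integrable (fun z => Ψ (ρ m z)) μ := fun m =>
    (hρ m).integrable_comp_of_integrable hint
  have hsum : (Fintype.card Mm : ℝ) * ∫ z, Ψ z ∂μ = ∫ z, ∑ m : Mm, Ψ (ρ m z) ∂μ := by
    rw [integral_finsetSum _ fun m _ => hintc m]
    rw [Finset.sum_congr rfl fun m _ => hcomp m]
    rw [Finset.sum_const, nsmul_eq_mul, Finset.card_univ]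
  rw [hsum]
  have hpt : ∀ z, ∑ m : Mm, Ψ (ρ m z) ≤ K := by
    intro z
    obtain ⟨F, G, hF1, hG1, hFG⟩ := hF z
    refine le_trans (le_of_eq ?_) (hQ F G hF1 hG1)
    unfold Qf
    refine Finset.sum_congr rfl fun m _ => ?_
    rw [hΨ]
    beta_reduce
    congr 1
    refine Finset.sum_congr rfl fun n hn => ?_
    rw [(hFG m n (Finset.mem_range.1 hn)).1, (hFG m n (Finset.mem_range.1 hn)).2]
  calc ∫ z, ∑ m : Mm, Ψ (ρ m z) ∂μ ≤ ∫ _z, K ∂μ :=
        integral_mono (integrable_finsetSum _ fun m _ => hintc m) (integrable_const K) hpt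
    _ = K := by simp

end Pool.Agent.Helper60.KK
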